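import Pool.Agent.H95.CG.Targets

/-!
# (MX) the matrix of a fractional ideal
-/

set_option autoImplicit false

open NumberField NumberField.InfinitePlace NumberField.Units
  NumberField.Units.dirichletUnitTheorem MeasureTheory Set Filter Complex
open scoped nonZeroDivisors ENNReal

namespace Pool.Agent.H54.CG

open Pool.Agent.H95.CG Pool.Agent.H25.HK

theorem cv_pos (hDU : T_DU) (K : Type) [Field K] [NumberField K] (M : FI K) (hM : M ≠ 0) :
    0 < cv K M := by
  unfold cv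
  have h1 : 0 < |(discr K : ℝ)| := by
    rw [abs_pos]
    exact_mod_cast discr_ne_zero K
  exact mul_pos (Real.sqrt_pos.2 h1) (hDU K M hM).2.2.2.1

theorem cv_mul (hDU : T_DU) (K : Type) [Field K] [NumberField K] (M : FI K) (hM : M ≠ 0) :
    cv K M * cv K (du K M) = 1 := by
  unfold cv
  have h := (hDU K M hM).2.2.2.2
  have h1 : Real.sqrt |(discr K : ℝ)| * Real.sqrt |(discr K : ℝ)| = |(discr K : ℝ)| :=
    Real.mul_self_sqrt (abs_nonneg _)
  calc _ = (FractionalIdeal.absNorm (du K M) : ℝ) * (FractionalIdeal.absNorm M : ℝ) *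
      (Real.sqrt |(discr K : ℝ)| * Real.sqrt |(discr K : ℝ)|) := by ring
    _ = 1 := by rw [h1, h]

/-- the scaling of the form -/
theorem qK_scale (hYC : T_YC) (K : Type) [Field K] [NumberField K] (τ t : ℝ) (ht : 0 < t)
    (z : logSpace K) (x : K) :
    qK K (yc K (Real.log t + τ) z) x =
      t ^ (2 / (Module.finrank ℚ K : ℝ)) * qK K (yc K τ z) x := by
  unfold qK
  rw [Finset.mul_sum]
  refine Finset.sum_congr rfl fun v _ => ?_
  rw [(hYC K).2.2.2.1 (Real.log t + τ) z v, (hYC K).2.2.2.1 τ z v, Real.rpow_def_of_pos ht]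
  have : Real.exp (2 * (Real.log t + τ) / (Module.finrank ℚ K : ℝ) + yc K 0 z v) =
      Real.exp (Real.log t * (2 / (Module.finrank ℚ K : ℝ))) *
        Real.exp (2 * τ / (Module.finrank ℚ K : ℝ) + yc K 0 z v) := by
    rw [← Real.exp_add]
    congr 1
    ring
  rw [this]
  ring

theorem norm_ge (hDU : T_DU) (hBI : T_BI) (K : Type) [Field K] [NumberField K] (M : FI K)
    (hM : M ≠ 0) (x : K) (hx : x ∈ M) (hx0 : x ≠ 0) :
    (FractionalIdeal.absNorm M : ℝ) ≤ ((|Algebra.norm ℚ x| : ℚ) : ℝ) := by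
  obtain ⟨X, h1, -, h3⟩ := hBI K M hM
  obtain ⟨p, hp, -⟩ := h3 x hx hx0
  have hpos := (hDU K M hM).2.2.2.1
  have hn : |Algebra.norm ℚ x| = |Algebra.norm ℚ (X p.1)| := by
    rw [hp, map_mul, abs_mul, NumberField.Units.norm, one_mul]
  rw [hn, (h1 p.1).2]
  have h4 : (1 : ℝ) ≤ (Ideal.absNorm p.1.1 : ℝ) := by
    have : Ideal.absNorm p.1.1 ≠ 0 := by
      rw [Ne, Ideal.absNorm_eq_zero_iff]
      exact p.1.2.1
    exact_mod_cast Nat.one_le_iff_ne_zero.2 this
  calc (FractionalIdeal.absNorm M : ℝ) = 1 * (FractionalIdeal.absNorm M : ℝ) := by ring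
    _ ≤ _ := mul_le_mul_of_nonneg_right h4 hpos.le

/-- the lower bound -/
theorem lower (hDU : T_DU) (hYC : T_YC) (hBI : T_BI) (K : Type) [Field K] [NumberField K]
    (M : FI K) (hM : M ≠ 0) (z : logSpace K) (x : K) (hx : x ∈ M) (hx0 : x ≠ 0) :
    |(discr K : ℝ)| ^ (-(1 / (Module.finrank ℚ K : ℝ))) ≤
      qK K (yc K (-Real.log (cv K M)) z) x := by
  set n : ℝ := (Module.finrank ℚ K : ℝ) with hn
  have hn1 : (1 : ℝ) ≤ n := by
    rw [hn]
    exact_mod_cast Module.finrank_pos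
  have hn0 : 0 < n := by linarith
  set y := yc K (-Real.log (cv K M)) z with hy
  have hcv := cv_pos hDU K M hM
  have hd : 0 < |(discr K : ℝ)| := by
    rw [abs_pos]
    exact_mod_cast discr_ne_zero K
  have hsum : ∑ v : InfinitePlace K, ((v.mult : ℕ) : ℝ) = n := by
    rw [hn, ← sum_mult_eq (K := K)]
    push_cast
    rfl
  have hAG := Real.geom_mean_le_arith_mean (Finset.univ : Finset (InfinitePlace K))
    (fun v => (v.mult : ℝ)) (fun v => Real.exp (y v) * (v x) ^ 2)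
    (fun v _ => by positivity) (by rw [hsum]; exact hn0) (fun v _ => by positivity)
  rw [hsum] at hAG
  have hprod : ∏ v : InfinitePlace K, (Real.exp (y v) * (v x) ^ 2) ^ (v.mult : ℝ) =
      Real.exp (∑ v, (v.mult : ℝ) * y v) * ((|Algebra.norm ℚ x| : ℚ) : ℝ) ^ 2 := by
    rw [Real.exp_sum]
    have h1 : (((|Algebra.norm ℚ x| : ℚ) : ℝ)) = ∏ w : InfinitePlace K, w x ^ mult w := by
      rw [prod_eq_abs_norm]
    rw [h1, ← Finset.prod_pow, ← Finset.prod_mul_distrib]
    refine Finset.prod_congr rfl fun v _ => ?_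
    rw [Real.rpow_natCast, mul_pow, ← Real.exp_nat_mul]
    ring
  rw [hprod, (hYC K).1] at hAG
  have hq : ∑ v : InfinitePlace K, (v.mult : ℝ) * (Real.exp (y v) * (v x) ^ 2) = qK K y x := by
    unfold qK
    refine Finset.sum_congr rfl fun v _ => by ring
  rw [hq] at hAG
  have hq0 : 0 ≤ qK K y x := by
    rw [← hq]
    exact Finset.sum_nonneg fun v _ => by positivity
  have h5 : qK K y x / n ≤ qK K y x := div_le_self hq0 hn1
  refine le_trans ?_ (hAG.trans h5)
  have hN := norm_ge hDU hBI K M hM x hx hx0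
  have hNM := (hDU K M hM).2.2.2.1
  have h6 : |(discr K : ℝ)|⁻¹ ≤ Real.exp (2 * -Real.log (cv K M)) *
      ((|Algebra.norm ℚ x| : ℚ) : ℝ) ^ 2 := by
    have h7 : Real.exp (2 * -Real.log (cv K M)) = (cv K M ^ 2)⁻¹ := by
      rw [mul_neg, Real.exp_neg, show (2 : ℝ) * Real.log (cv K M) = ((2 : ℕ) : ℝ) *
        Real.log (cv K M) by norm_num, Real.exp_nat_mul, Real.exp_log hcv]
    have h8 : cv K M ^ 2 = |(discr K : ℝ)| * (FractionalIdeal.absNorm M : ℝ) ^ 2 := by
      unfold cv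
      rw [mul_pow, Real.sq_sqrt hd.le]
    rw [h7, h8, mul_inv, mul_assoc]
    have h9 : (1 : ℝ) ≤ ((FractionalIdeal.absNorm M : ℝ) ^ 2)⁻¹ *
        ((|Algebra.norm ℚ x| : ℚ) : ℝ) ^ 2 := by
      rw [inv_mul_eq_div, one_le_div (by positivity)]
      exact pow_le_pow_left₀ hNM.le hN 2
    exact le_mul_of_one_le_right (by positivity) h9
  rw [Real.rpow_neg hd.le, ← Real.inv_rpow hd.le, one_div]
  exact Real.rpow_le_rpow (by positivity) h6 (by positivity)

/-- the coordinates of a lattice -/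
theorem sum_eq (K : Type) [Field K] [NumberField K] (ι : Type) [Fintype ι] [DecidableEq ι]
    (b : Module.Basis ι ℚ K) (y y' : InfinitePlace K → ℝ) (c t : ℝ) (M : FI K)
    (hb : ∀ x : K, x ∈ M ↔ ∃ m : ι → ℤ, ∑ i, m i • b i = x) (S : Matrix ι ι ℝ)
    (hS : ∀ m : ι → ℤ, qf S (fun i => (m i : ℝ)) = qK K y (∑ i, m i • b i))
    (hc : ∀ x : K, qK K y' x = c * qK K y x) (ht : t = c) :
    th K M y' = ts S t := by
  subst ht
  have hinj : Function.Injective (fun m : ι → ℤ => ∑ i, m i • b i) := by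
    intro m m' h
    have e : ∀ m : ι → ℤ, ∑ i, m i • b i = b.equivFun.symm (fun i => ((m i : ℤ) : ℚ)) := by
      intro m
      rw [Module.Basis.equivFun_symm_apply]
      refine Finset.sum_congr rfl fun i _ => ?_
      rw [Int.cast_smul_eq_zsmul]
    simp only [e] at h
    have h2 := b.equivFun.symm.injective h
    funext i
    exact_mod_cast congrFun h2 i
  let e : (ι → ℤ) ≃ {x : K // x ∈ M} := Equiv.ofBijective
    (fun m => ⟨∑ i, m i • b i, (hb _).2 ⟨m, rfl⟩⟩)
    ⟨fun m m' h => hinj (congrArg Subtype.val h), fun x => by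
      obtain ⟨m, hm⟩ := (hb x.1).1 x.2
      exact ⟨m, Subtype.ext hm⟩⟩
  unfold th ts
  rw [← e.tsum_eq]
  refine tsum_congr fun m => ?_
  have : ((e m : {x : K // x ∈ M}) : K) = ∑ i, m i • b i := rfl
  rw [this, hc, qz, hS]

theorem lb (K : Type) [Field K] [NumberField K] (ι : Type) [Fintype ι] [DecidableEq ι]
    (b : Module.Basis ι ℚ K) (y : InfinitePlace K → ℝ) (M : FI K)
    (hb : ∀ x : K, x ∈ M ↔ ∃ m : ι → ℤ, ∑ i, m i • b i = x) (S : Matrix ι ι ℝ)
    (hS : ∀ m : ι → ℤ, qf S (fun i => (m i : ℝ)) = qK K y (∑ i, m i • b i))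
    (a : ℝ) (ha : 0 < a) (h : ∀ x ∈ M, x ≠ 0 → a ≤ qK K y x) : LB S a := by
  refine ⟨ha, fun m hm => ?_⟩
  rw [qz, hS]
  refine h _ ((hb _).2 ⟨m, rfl⟩) ?_
  intro h0
  apply hm
  have e : ∑ i, m i • b i = b.equivFun.symm (fun i => ((m i : ℤ) : ℚ)) := by
    rw [Module.Basis.equivFun_symm_apply]
    refine Finset.sum_congr rfl fun i _ => ?_
    rw [Int.cast_smul_eq_zsmul]
  rw [e] at h0
  have h2 := (LinearEquiv.map_eq_zero_iff _).1 h0
  funext i
  have h3 : ((m i : ℤ) : ℚ) = 0 := congrFun h2 i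
  have h4 : m i = 0 := by exact_mod_cast h3
  rw [h4]
  rfl

end Pool.Agent.H54.CG

namespace Pool.Agent.H54.CG

open Pool.Agent.H95.CG Pool.Agent.H25.HK

theorem pf_mx (hLB : T_LB) (hGM : T_GM) (hDU : T_DU) (hYC : T_YC) (hBI : T_BI) : T_MX := by
  intro K _ _ M hM z
  obtain ⟨ι, i1, i2, b, b', htr, hb, hb', hdisc⟩ := hLB K M hM
  set y0 := yc K (-Real.log (cv K M)) z with hy0
  obtain ⟨S, hS, hq, hq', hdet⟩ := hGM K ι b b' htr y0
  have hcv := cv_pos hDU K M hM
  have hdM := (hDU K M hM).1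
  have hcv' := cv_pos hDU K (du K M) hdM
  have hmul := cv_mul hDU K M hM
  have hlog : Real.log (cv K (du K M)) = -Real.log (cv K M) := by
    have := congrArg Real.log hmul
    rw [Real.log_mul hcv.ne' hcv'.ne', Real.log_one] at this
    linarith
  have hneg : yc K (-Real.log (cv K (du K M))) (-z) = -y0 := by
    rw [hlog, (hYC K).2.1]
  have hd : 0 < |(discr K : ℝ)| := by
    rw [abs_pos]
    exact_mod_cast discr_ne_zero K
  refine ⟨ι, i1, i2, S, (Module.finrank_eq_card_basis b).symm, hS, ?_, ?_, ?_, ?_, ?_⟩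
  · rw [hdet, (hYC K).1, hdisc]
    rw [mul_neg, Real.exp_neg, show (2 : ℝ) * Real.log (cv K M) = ((2 : ℕ) : ℝ) *
        Real.log (cv K M) by norm_num, Real.exp_nat_mul, Real.exp_log hcv]
    exact inv_mul_cancel₀ (by positivity)
  · intro t ht
    refine sum_eq K ι b y0 _ _ _ M hb S hq (fun x => ?_) rfl
    rw [Real.log_div ht.ne' hcv.ne', sub_eq_add_neg, qK_scale hYC K _ t ht z x]
  · intro t ht
    refine sum_eq K ι b' (-y0) _ _ _ (du K M) hb' S⁻¹ hq' (fun x => ?_) rfl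
    rw [Real.log_div ht.ne' hcv'.ne', sub_eq_add_neg, qK_scale hYC K _ t ht (-z) x, hneg]
  · exact lb K ι b y0 M hb S hq _ (Real.rpow_pos_of_pos hd _)
      (fun x hx hx0 => lower hDU hYC hBI K M hM z x hx hx0)
  · refine lb K ι b' (-y0) (du K M) hb' S⁻¹ hq' _ (Real.rpow_pos_of_pos hd _)
      (fun x hx hx0 => ?_)
    have := lower hDU hYC hBI K (du K M) hdM (-z) x hx hx0
    rwa [hneg] at this

end Pool.Agent.H54.CG
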